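import Pool.Agent.H30.D2d

set_option autoImplicit false

namespace Pool.Agent.Results.MP_d76130_gt.Square

open Set TopologicalSpace

open Pool.Agent.H30.D2 in
theorem result : ∃ (X : Type) (_ : TopologicalSpace X), T35Space X ∧
    IsTopologicalBasis {U : Set X | IsClopen U} ∧
    NormalSpace {f : X → Bool // Continuous f} ∧
    ¬ NormalSpace ({f : X → Bool // Continuous f} × {f : X → Bool // Continuous f}) := by
  have : LindelofSpace Z := isLindelof_iff_lindelofSpace.1 lind
  exact ⟨X, inferInstance, inferInstance, basis, inferInstance, not_normal⟩

end Pool.Agent.Results.MP_d76130_gt.Square
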